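import Pool.Agent.Q49.CQ.Main

/-!
# Two quadrics in `ℙ⁵` without points over a field of cohomological dimension one

Every field `k₀` of characteristic two has an extension field `k` of cohomological dimension one
and a smooth complete intersection of two quadrics in `ℙ⁵` over `k` which has no rational point;
its index is even four, the largest value an intersection of two quadrics can have.

Construction: `κ = k₀(X₀, X₁, …)`, `k` is a maximal extension prime to two of `κ(c)` inside its
separable closure, and `X` is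
`∑ aᵢ xᵢ² + c (x₀ x₁ + x₂ x₃ + x₄ x₅) = 0`,
`∑ bᵢ xᵢ² + c (λ₀ x₀ x₁ + λ₁ x₂ x₃ + λ₂ x₄ x₅) = 0`,
with `aᵢ = Xᵢ`, `bᵢ = X₍₆₊ᵢ₎`, `λⱼ = Xⱼ`.
-/

set_option autoImplicit false

open MvPolynomial Pool.Agent.Helper346.Cd Pool.Agent.Q49.CQ

namespace Pool.Agent.Results.MP_0f87c6_ag.IndexFour

/-- Every field `k₀` of characteristic two has an extension field `k` of cohomological dimension
exactly one over which some smooth complete intersection of two quadrics in `ℙ⁵` has no rational
point, and has index four. -/
theorem result (k₀ : Type) [Field k₀] [CharP k₀ 2] :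
    ∃ (k : Type) (_ : Field k) (_ : Algebra k₀ k), CdEqOne Gal(SeparableClosure k/k) ∧
      ∃ F G : MvPolynomial (Fin (5 + 1)) k, F.IsHomogeneous 2 ∧ G.IsHomogeneous 2 ∧
        IsSmoothCI F G ∧ ¬ HasCIPoint F G ∧ IsCIIndex F G 4 := by
  obtain ⟨k, i1, i2, h1, h2⟩ := Pool.Agent.Q49.CQ.main k₀
  exact ⟨k, i1, i2, h1, h2 2 (by norm_num)⟩

end Pool.Agent.Results.MP_0f87c6_ag.IndexFour
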